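import Mathlib
import Pool.Agent.VX.Final

/-!
# Vojta's inequality for 100% of the points of bounded degree, on every variety

`K` is a number field and `X` is any set of points of `P^N` over an algebraic closure of `K` which
contains an infinite locally closed set `F_1 = … = F_t = 0, G ≠ 0` defined over `K` (for example
any variety of positive dimension, or such a variety minus a proper closed subset).
-/

set_option autoImplicit false

open scoped LinearAlgebra.Projectivization
open MvPolynomial NumberField

namespace Pool.Agent.Results.MP_9b9442_nt.AlmostAllPoints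

universe u

/-- The points of `P^N` over an algebraic closure of `K`. -/
abbrev Points (K : Type u) [Field K] (N : ℕ) : Type u :=
  ℙ (AlgebraicClosure K) (Fin (N + 1) → AlgebraicClosure K)

/-- The residue field `K(P)`: the field generated over `K` by the quotients of the homogeneous
coordinates of `P`. -/
noncomputable def residueField {K : Type u} [Field K] {N : ℕ} (P : Points K N) :
    IntermediateField K (AlgebraicClosure K) :=
  IntermediateField.adjoin K
    (Set.range fun q : Fin (N + 1) × Fin (N + 1) => P.rep q.1 / P.rep q.2)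

/-- The index of a nonzero coordinate of `P`. -/
noncomputable def pivot {K : Type u} [Field K] {N : ℕ} (P : Points K N) : Fin (N + 1) :=
  Classical.choose (Function.ne_iff.1 P.rep_nonzero)

/-- Homogeneous coordinates of `P` in its residue field. -/
noncomputable def coords {K : Type u} [Field K] {N : ℕ} (P : Points K N) :
    Fin (N + 1) → residueField P := fun i =>
  ⟨P.rep i / P.rep (pivot P), IntermediateField.subset_adjoin _ _ ⟨(i, pivot P), rfl⟩⟩

instance {K : Type u} [Field K] [NumberField K] {N : ℕ} (P : Points K N) :
    NumberField (residueField P) :=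
  VX.numberFieldResField P

/-- The degree `[K(P) : K]`. -/
noncomputable def degree {K : Type u} [Field K] {N : ℕ} (P : Points K N) : ℕ :=
  Module.finrank K (residueField P)

/-- The logarithmic height of `P`, relative to `K`. -/
noncomputable def height {K : Type u} [Field K] [NumberField K] {N : ℕ} (P : Points K N) : ℝ :=
  Height.logHeight (coords P) / degree P

/-- The logarithmic discriminant `d_K(P)`. -/
noncomputable def logDisc {K : Type u} [Field K] [NumberField K] {N : ℕ} (P : Points K N) : ℝ :=
  Real.log |(discr (residueField P) : ℝ)| / degree P - Real.log |(discr K : ℝ)|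

/-- The points with `F_1 = … = F_t = 0` and `G ≠ 0`. -/
def locus {K : Type u} [Field K] {N t : ℕ} (F : Fin t → MvPolynomial (Fin (N + 1)) K)
    (G : MvPolynomial (Fin (N + 1)) K) : Set (Points K N) :=
  {P | (∀ j, aeval P.rep (F j) = 0) ∧ aeval P.rep G ≠ 0}

/-- The points of `X` of degree at most `d` and height at most `T`. -/
def pointsLE {K : Type u} [Field K] [NumberField K] {N : ℕ} (X : Set (Points K N)) (d : ℕ)
    (T : ℝ) : Set (Points K N) :=
  {P | P ∈ X ∧ degree P ≤ d ∧ height P ≤ T}

/-- Those of them whose logarithmic discriminant is at most `lam * T`. -/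
def smallDisc {K : Type u} [Field K] [NumberField K] {N : ℕ} (X : Set (Points K N)) (d : ℕ)
    (T lam : ℝ) : Set (Points K N) :=
  {P | P ∈ pointsLE X d T ∧ logDisc P ≤ lam * T}

theorem result {K : Type u} [Field K] [NumberField K] {N t : ℕ}
    (F : Fin t → MvPolynomial (Fin (N + 1)) K) (G : MvPolynomial (Fin (N + 1)) K)
    (hF : ∀ j, ∃ e, (F j).IsHomogeneous e) (hG : ∃ e, G.IsHomogeneous e)
    (hinf : (locus F G).Infinite) (X : Set (Points K N)) (hX : locus F G ⊆ X)
    (r : ℕ) (hr : 1 ≤ r) :
    ∃ (A B : ℝ) (e : ℕ), 0 < B ∧ ∀ d : ℕ, e ≤ d → ∃ T₀ : ℝ, ∀ T : ℝ, T₀ ≤ T →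
      (pointsLE X d T).Finite ∧ Real.exp (B * d ^ 2 * T) ≤ (pointsLE X d T).ncard ∧
      ∀ lam : ℝ, 1 ≤ lam → ((smallDisc X d T lam).ncard : ℝ) ≤
        ((pointsLE X d T).ncard : ℝ) ^ (A * lam * (d : ℝ) ^ ((1 : ℝ) / r) / d) := by
  obtain ⟨A, B, e, _, hB, h⟩ := VX.main_theorem F G hF hG hinf X hX r hr
  exact ⟨A, B, e, hB, h⟩

end Pool.Agent.Results.MP_9b9442_nt.AlmostAllPoints
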