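import Mathlib
import Pool.Agent.GE.Final

/-!
# Vojta's inequality on all modifications of `E^n` whose centre has codimension `> rank`

`E : y² = x³ + a x + b` is an elliptic curve over a number field `K`, `Y ⊂ E^n ⊂ (P²)^n` is any
closed subscheme, given by multihomogeneous polynomials in the variables `X (i, k)`
(`k = 0, 1, 2`: the coordinates `X, Y, Z` of the `i`-th point).
-/

set_option autoImplicit false

open MvPolynomial WeierstrassCurve WeierstrassCurve.Affine Height NumberField

namespace Pool.Agent.Results.MP_9b9442_nt.ArbitraryCentres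

universe u

/-- Homogeneous coordinates `(X : Y : Z)` of a point: `(0 : 1 : 0)` for the origin and
`(x : y : 1)` for the affine point `(x, y)`. -/
def coords {F : Type u} [Field F] {W : Affine F} : W.Point → Fin 3 → F
  | 0 => ![0, 1, 0]
  | .some x y _ => ![x, y, 1]

/-- The value of a polynomial at the homogeneous coordinates of an `n`-tuple of points. -/
noncomputable def value {K F : Type u} [Field K] [Field F] [Algebra K F] {W : Affine F} {n : ℕ}
    (p : MvPolynomial (Fin n × Fin 3) K) (P : Fin n → W.Point) : F :=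
  aeval (fun q : Fin n × Fin 3 => coords (P q.1) q.2) p

/-- `p` is multihomogeneous: homogeneous of degree `d i` in the block of variables `X (i, ·)`,
for every `i`. -/
def MultiHom {K : Type u} [Field K] {n : ℕ} (p : MvPolynomial (Fin n × Fin 3) K)
    (d : Fin n → ℕ) : Prop :=
  IsWeightedHomogeneous (fun v : Fin n × Fin 3 => (Pi.single v.1 1 : Fin n → ℕ)) p d

/-- The equation `Y²Z - X³ - aXZ² - bZ³` of the curve, in the `i`-th block of variables. -/
noncomputable def curveEq {K : Type u} [Field K] (W : Affine K) {n : ℕ} (i : Fin n) :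
    MvPolynomial (Fin n × Fin 3) K :=
  X (i, 1) ^ 2 * X (i, 2) - X (i, 0) ^ 3 - C W.a₄ * X (i, 0) * X (i, 2) ^ 2
    - C W.a₆ * X (i, 2) ^ 3

/-- The ideal of the closed subscheme `Y` of `E^n` defined by `F_1 = … = F_t = 0`. -/
noncomputable def centreIdeal {K : Type u} [Field K] (W : Affine K) {n t : ℕ}
    (F : Fin t → MvPolynomial (Fin n × Fin 3) K) : Ideal (MvPolynomial (Fin n × Fin 3) K) :=
  Ideal.span (Set.range F ∪ Set.range (curveEq W))

/-- The Hilbert function of `I` in multidegree `(D, …, D)`: the dimension over `K` of the space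
of forms of that multidegree modulo `I`. -/
noncomputable def hilbertFunction {K : Type u} [Field K] {n : ℕ}
    (I : Ideal (MvPolynomial (Fin n × Fin 3) K)) (D : ℕ) : ℕ :=
  Module.finrank K ((weightedHomogeneousSubmodule K
    (fun v : Fin n × Fin 3 => (Pi.single v.1 1 : Fin n → ℕ)) (fun _ => D)).map
      (Ideal.Quotient.mkₐ K I).toLinearMap)

/-- The subscheme of `(P²)^n` defined by `I` has dimension at most `m`: its Hilbert function is
`O(D^m)`. -/
def DimLE {K : Type u} [Field K] {n : ℕ} (I : Ideal (MvPolynomial (Fin n × Fin 3) K))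
    (m : ℕ) : Prop :=
  ∃ C : ℕ, ∀ D : ℕ, hilbertFunction I D ≤ C * (D + 1) ^ m

/-- How close `P` is to `Y : F_1 = … = F_t = 0` with respect to an absolute value `v`:
`max_j |F_j(P)| / ∏_i |P_i|^(deg_i F_j)`, where `|P_i|` is the maximum of the absolute values of
the coordinates of `P_i`. -/
noncomputable def closeness {K L : Type u} [Field K] [Field L] [Algebra K L] {W : Affine L}
    {n t : ℕ} (F : Fin t → MvPolynomial (Fin n × Fin 3) K) (D : Fin t → Fin n → ℕ)
    (P : Fin n → W.Point) (v : L → ℝ) : ℝ :=
  ⨆ j, v (value (F j) P) / ∏ i, (⨆ k, v (coords (P i) k)) ^ D j i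

/-- The height of `P`, relative to `K`, with respect to `Y` (equivalently, with respect to the
inverse image of `Y` on the blow-up of `E^n` along `Y`): the sum of `- log closeness` over all
places of `L`, divided by `[L : K]`. -/
noncomputable def centreHeight {K L : Type u} [Field K] [Field L] [NumberField L] [Algebra K L]
    {W : Affine L} {n t : ℕ} (F : Fin t → MvPolynomial (Fin n × Fin 3) K)
    (D : Fin t → Fin n → ℕ) (P : Fin n → W.Point) : ℝ :=
  (Module.finrank K L : ℝ)⁻¹ *
    (∑ w : InfinitePlace L, w.mult * (-Real.log (closeness F D P w)) +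
      ∑ᶠ w : FinitePlace L, -Real.log (closeness F D P w))

/-- The height, relative to `K`, on `E` with respect to the divisor `(0)`: half the height of the
`x`-coordinate. -/
noncomputable def pointHeight (K : Type u) {L : Type u} [Field K] [Field L] [NumberField L]
    [Algebra K L] {W : Affine L} (P : W.Point) : ℝ :=
  (Module.finrank K L : ℝ)⁻¹ * (1 / 2) * logHeight P.xRep

/-- The height, relative to `K`, on `E^n` with respect to the ample divisor `Σ_i pr_i^* (0)`. -/
noncomputable def ampleHeight (K : Type u) {L : Type u} [Field K] [Field L] [NumberField L]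
    [Algebra K L] {W : Affine L} {n : ℕ} (P : Fin n → W.Point) : ℝ :=
  ∑ i, pointHeight K (P i)

/-- The coordinates of `P` generate a subgroup of rank at most `r`: up to nonzero multiples they
lie in a subgroup with `r` generators. -/
def RankLE {A : Type u} [AddCommGroup A] {n : ℕ} (P : Fin n → A) (r : ℕ) : Prop :=
  ∃ Q : Fin r → A, ∀ i, ∃ N : ℤ, N ≠ 0 ∧ N • P i ∈ AddSubgroup.closure (Set.range Q)

/-- `P` is within relative distance `δ` of (a fraction `1/N` of) a tuple `P'` of rank at most
`r`. With `N = 1`, `P' = P` this holds if the coordinates of `P` generate a subgroup of rank at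
most `r`. -/
def NearRank (K : Type u) {L : Type u} [Field K] [Field L] [NumberField L] [DecidableEq L]
    [Algebra K L] {W : Affine L} {n : ℕ} (P : Fin n → W.Point) (r : ℕ) (δ : ℝ) : Prop :=
  ∃ (N : ℕ) (P' : Fin n → W.Point), 0 < N ∧ RankLE P' r ∧
    ∀ i, pointHeight K (N • P i - P' i) ≤ δ * N ^ 2 * ampleHeight K P

theorem result {K : Type u} [Field K] [NumberField K] (W : Affine K) [W.IsElliptic]
    [W.IsShortNF] {n t m r : ℕ} (F : Fin t → MvPolynomial (Fin n × Fin 3) K)
    (D : Fin t → Fin n → ℕ) (hF : ∀ j, MultiHom (F j) (D j))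
    (hdim : DimLE (centreIdeal W F) m) (hcodim : r < n - m) (ε : ℝ) (hε : 0 < ε) :
    ∃ (δ C : ℝ) (𝒢 : Finset (MvPolynomial (Fin n × Fin 3) K)), 0 < δ ∧
      (∀ G ∈ 𝒢, (∃ d, MultiHom G d) ∧
        ∃ P : Fin n → (W⁄(AlgebraicClosure K)).Point, value G P ≠ 0) ∧
      ∀ (L : Type u) [Field L] [NumberField L] [DecidableEq L] [Algebra K L]
        (P : Fin n → (W⁄L).Point), NearRank K P r δ → (∀ G ∈ 𝒢, value G P ≠ 0) →
        (∃ j, value (F j) P ≠ 0) ∧ centreHeight F D P ≤ ε * ampleHeight K P + C := by
  classical
  have hv : ∀ {F' : Type u} [Field F'] [Algebra K F'] {W' : Affine F'}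
      (p : MvPolynomial (Fin n × Fin 3) K) (P : Fin n → W'.Point),
      value p P = aeval (fun q : Fin n × Fin 3 => GE.coords (P q.1) q.2) p := by
    intro F' _ _ W' p P
    have : (fun q : Fin n × Fin 3 => coords (P q.1) q.2) =
        fun q : Fin n × Fin 3 => GE.coords (P q.1) q.2 := by
      funext q
      match P q.1 with
      | 0 => rfl
      | .some x y h => rfl
    rw [value, this]
  have hcoords : ∀ {F' : Type u} [Field F'] {W' : Affine F'} (Q : W'.Point),
      coords Q = GE.coords Q := by
    intro F' _ W' Q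
    match Q with
    | 0 => rfl
    | .some x y h => rfl
  obtain ⟨δ, C, 𝒢, hδ, hC0, hG, h⟩ := GE.main_theorem W (m := m) (r := r) (by omega) F D hF hdim
    (ε / 2) (half_pos hε)
  refine ⟨δ, C * Module.finrank ℚ K, 𝒢, hδ, ?_, ?_⟩
  · intro G hGm
    obtain ⟨h1, P, hP⟩ := hG G hGm
    exact ⟨h1, P, by rw [hv]; exact hP⟩
  · intro L _ _ _ _ P hnear hP
    have hfin0 : (0 : ℝ) < Module.finrank K L := by exact_mod_cast Module.finrank_pos
    have htw : (totalWeight L : ℝ) = Module.finrank ℚ K * Module.finrank K L := by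
      rw [totalWeight_eq_finrank, ← Module.finrank_mul_finrank ℚ K L]
      push_cast
      ring
    have hamp : ampleHeight K P = (Module.finrank K L : ℝ)⁻¹ * (1 / 2) *
        ∑ j, H7.Vojta.naive (P j) := by
      rw [ampleHeight, Finset.mul_sum]
      rfl
    have hnear' : GE.NearRank P r δ := by
      obtain ⟨N, P', hN, hP', h2⟩ := hnear
      refine ⟨N, P', hN, hP', fun i => ?_⟩
      have h3 := h2 i
      rw [hamp] at h3
      have h4 : (Module.finrank K L : ℝ)⁻¹ * (1 / 2) * H7.Vojta.naive (N • P i - P' i) ≤
          (Module.finrank K L : ℝ)⁻¹ * (1 / 2) *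
            (δ * N ^ 2 * ∑ j, H7.Vojta.naive (P j)) := by
        have e : pointHeight K (N • P i - P' i) =
          (Module.finrank K L : ℝ)⁻¹ * (1 / 2) * H7.Vojta.naive (N • P i - P' i) := rfl
        rw [← e]
        calc _ ≤ _ := h3
          _ = _ := by ring
      exact le_of_mul_le_mul_left h4 (by positivity)
    obtain ⟨⟨j, hj⟩, h5⟩ := h L P hnear' (fun G hGm => by rw [← hv]; exact hP G hGm)
    refine ⟨⟨j, by rw [hv]; exact hj⟩, ?_⟩
    have hcl : ∀ v : L → ℝ, closeness F D P v = GE.closeness F D P v := by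
      intro v
      unfold closeness GE.closeness
      simp only [hv, hcoords]
    have h6 : centreHeight F D P = (Module.finrank K L : ℝ)⁻¹ * GE.centreSum F D P := by
      simp only [centreHeight, GE.centreSum, hcl]
    rw [h6, hamp]
    calc (Module.finrank K L : ℝ)⁻¹ * GE.centreSum F D P
        ≤ (Module.finrank K L : ℝ)⁻¹ * (ε / 2 * ∑ i, H7.Vojta.naive (P i) +
          C * totalWeight L) := mul_le_mul_of_nonneg_left h5 (by positivity)
      _ = _ := by
          rw [htw]
          field_simp

end Pool.Agent.Results.MP_9b9442_nt.ArbitraryCentres
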