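import Pool.Agent.ESD.Final

/-!
# The exceptional set of Vojta's conjecture for algebraic points must grow with the degree

`K` is a number field, `X` the `n`-th power of the Fermat curve `y ^ m + z ^ m = 1` (its smooth
projective model `X ^ m = Y ^ m + Z ^ m` in the projective plane), of canonical class
`∑ i, (m - 3) H_i`. We work with the closed points of `X` in the affine part.
-/

set_option autoImplicit false

namespace Pool.Agent.Results.MP_9b9442_nt.ExceptionalSetDegree

open NumberField Module MvPolynomial

universe u

/-- `(y i, z i)`, `i < n`, are the coordinates of a point of the `n`-th power of the affine Fermat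
curve `y ^ m + z ^ m = 1`, and they generate the field `F` over `K`: a closed point over `K` of
the `n`-th power, with residue field `F`. -/
structure IsClosedPoint (K : Type u) {F : Type u} [Field K] [Field F] [Algebra K F] {n : ℕ}
    (m : ℕ) (y z : Fin n → F) : Prop where
  fermat : ∀ i, y i ^ m + z i ^ m = 1
  residueField : IntermediateField.adjoin K (Set.range y ∪ Set.range z) = ⊤

/-- The logarithmic discriminant `d_K(P)` of a closed point `P` with residue field `F`. -/
noncomputable def logDisc (K F : Type u) [Field K] [NumberField K] [Field F] [NumberField F]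
    [Algebra K F] : ℝ :=
  Real.log |(discr F : ℝ)| / finrank K F - Real.log |(discr K : ℝ)|

/-- The height of the point relative to `K`: the sum over `i` of the heights of the points
`(1 : y i : z i)` of the projective plane. -/
noncomputable def height (K : Type u) {F : Type u} [Field K] [NumberField K] [Field F]
    [NumberField F] [Algebra K F] {n : ℕ} (y z : Fin n → F) : ℝ :=
  (∑ i, Height.logHeight ![1, y i, z i]) / finrank K F

/-- Let `c m + ε n < n (m - 3)` and `D ≥ 1`. If the polynomial `G` in the coordinates does not
vanish at all the points, and its degree in `(y i, z i)` is at most `D` for every `i`, then for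
every `C` there is a closed point `P` with `G(P) ≠ 0`, of degree at most
`m ^ (2 n) (2 D) ^ (n - 1)`, with `(m - 3) h(P) ≥ c d_K(P) + ε h(P) + C`. -/
theorem result (K : Type u) [Field K] [NumberField K] (n m : ℕ) (c ε : ℝ) (hc : 0 ≤ c)
    (hε : 0 ≤ ε) (h : c * m + ε * n < n * ((m : ℝ) - 3)) (D : ℕ) (hD : 1 ≤ D)
    (G : MvPolynomial (Fin n ⊕ Fin n) K)
    (hG : ∃ y z : Fin n → AlgebraicClosure K, (∀ i, y i ^ m + z i ^ m = 1) ∧
      aeval (Sum.elim y z) G ≠ 0)
    (hdeg : ∀ i, G.degreeOf (.inl i) + G.degreeOf (.inr i) ≤ D) (C : ℝ) :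
    ∃ (F : Type u) (_ : Field F) (_ : NumberField F) (_ : Algebra K F) (y z : Fin n → F),
      IsClosedPoint K m y z ∧ finrank K F ≤ m ^ (2 * n) * (2 * D) ^ (n - 1) ∧
      aeval (Sum.elim y z) G ≠ 0 ∧
      c * logDisc K F + ε * height K y z + C ≤ ((m : ℝ) - 3) * height K y z := by
  obtain ⟨F, hF, y, z, h1, h2, h3, h4, h5⟩ := ESD.main K n m c ε hc hε h (Nat.log 2 D + 1) G hG
    (fun i => (hdeg i).trans_lt (Nat.lt_pow_succ_log_self (by norm_num) D)) C
  refine ⟨F, inferInstance, hF, inferInstance, y, z, ⟨h1, h2⟩, h3.trans ?_, h4, h5⟩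
  apply Nat.mul_le_mul_left
  rw [mul_comm (n - 1), pow_mul]
  apply Nat.pow_le_pow_left
  rw [pow_succ, mul_comm]
  exact Nat.mul_le_mul_left _ (Nat.pow_log_le_self 2 (by omega))

end Pool.Agent.Results.MP_9b9442_nt.ExceptionalSetDegree
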