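import Mathlib
import Pool.Agent.AG.Me
import Pool.Agent.AG.Inst

/-!
# Vojta's inequality for almost all rational points of every modification of a product of
elliptic curves

`W i` (`i : Fin n`) are elliptic curves over a number field `k` in general Weierstrass form,
`Y ⊂ ∏ᵢ W i ⊂ (P²)ⁿ` is any closed subscheme of codimension at least `c ≥ 2`, given by
multihomogeneous polynomials in the variables `X (i, l)` (`l = 0, 1, 2`: the coordinates
`X, Y, Z` of the `i`-th point), and `Γ i` is a finitely generated group of points of `W i` over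
`k` of rank at least `r ≥ 1`.
-/

set_option autoImplicit false

open MvPolynomial WeierstrassCurve WeierstrassCurve.Affine Height NumberField

namespace Pool.Agent.Results.MP_9b9442_nt.ProductCentres

universe u

/-- Homogeneous coordinates `(X : Y : Z)` of a point: `(0 : 1 : 0)` for the origin and
`(x : y : 1)` for the affine point `(x, y)`. -/
def coords {k : Type u} [Field k] {W : Affine k} : W.Point → Fin 3 → k
  | 0 => ![0, 1, 0]
  | .some x y _ => ![x, y, 1]

/-- The value of a polynomial at the homogeneous coordinates of a point of the product. -/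
noncomputable def value {k : Type u} [Field k] {n : ℕ} {W : Fin n → Affine k}
    (p : MvPolynomial (Fin n × Fin 3) k) (P : ∀ i, (W i).Point) : k :=
  aeval (fun q : Fin n × Fin 3 => coords (P q.1) q.2) p

/-- `p` is multihomogeneous: homogeneous of degree `d i` in the block of variables `X (i, ·)`,
for every `i`. -/
def MultiHom {k : Type u} [Field k] {n : ℕ} (p : MvPolynomial (Fin n × Fin 3) k)
    (d : Fin n → ℕ) : Prop :=
  IsWeightedHomogeneous (fun v : Fin n × Fin 3 => (Pi.single v.1 1 : Fin n → ℕ)) p d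

/-- The homogeneous Weierstrass equation of the `i`-th curve, in the `i`-th block of variables. -/
noncomputable def curveEq {k : Type u} [Field k] {n : ℕ} (W : Fin n → Affine k) (i : Fin n) :
    MvPolynomial (Fin n × Fin 3) k :=
  X (i, 1) ^ 2 * X (i, 2) + C (W i).a₁ * X (i, 0) * X (i, 1) * X (i, 2) +
    C (W i).a₃ * X (i, 1) * X (i, 2) ^ 2 - X (i, 0) ^ 3 - C (W i).a₂ * X (i, 0) ^ 2 * X (i, 2) -
    C (W i).a₄ * X (i, 0) * X (i, 2) ^ 2 - C (W i).a₆ * X (i, 2) ^ 3

/-- The ideal of the closed subscheme `Y` of the product of the curves defined by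
`F_1 = … = F_t = 0`. -/
noncomputable def centreIdeal {k : Type u} [Field k] {n : ℕ} (W : Fin n → Affine k) {t : ℕ}
    (F : Fin t → MvPolynomial (Fin n × Fin 3) k) : Ideal (MvPolynomial (Fin n × Fin 3) k) :=
  Ideal.span (Set.range F ∪ Set.range (curveEq W))

/-- The Hilbert function of `I` in multidegree `(D, …, D)`: the dimension over `k` of the space
of forms of that multidegree modulo `I`. -/
noncomputable def hilbertFunction {k : Type u} [Field k] {n : ℕ}
    (I : Ideal (MvPolynomial (Fin n × Fin 3) k)) (D : ℕ) : ℕ :=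
  Module.finrank k ((weightedHomogeneousSubmodule k
    (fun v : Fin n × Fin 3 => (Pi.single v.1 1 : Fin n → ℕ)) (fun _ => D)).map
      (Ideal.Quotient.mkₐ k I).toLinearMap)

/-- The subscheme of `(P²)^n` defined by `I` has dimension at most `m`: its Hilbert function is
`O(D^m)`. -/
def DimLE {k : Type u} [Field k] {n : ℕ} (I : Ideal (MvPolynomial (Fin n × Fin 3) k))
    (m : ℕ) : Prop :=
  ∃ C : ℕ, ∀ D : ℕ, hilbertFunction I D ≤ C * (D + 1) ^ m

/-- How close `P` is to `Y : F_1 = … = F_t = 0` with respect to an absolute value `v`: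
`max_j |F_j(P)| / ∏_i |P_i|^(deg_i F_j)`, where `|P_i|` is the maximum of the absolute values of
the coordinates of `P_i`. -/
noncomputable def closeness {k : Type u} [Field k] {n : ℕ} {W : Fin n → Affine k} {t : ℕ}
    (F : Fin t → MvPolynomial (Fin n × Fin 3) k) (D : Fin t → Fin n → ℕ)
    (P : ∀ i, (W i).Point) (v : k → ℝ) : ℝ :=
  ⨆ j, v (value (F j) P) / ∏ i, (⨆ l, v (coords (P i) l)) ^ D j i

/-- The height of `P` with respect to `Y` (equivalently, with respect to the inverse image of `Y`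
on the blow-up along `Y`): the sum of `- log closeness` over all places of `k`. -/
noncomputable def centreHeight {k : Type u} [Field k] [NumberField k] {n : ℕ}
    {W : Fin n → Affine k} {t : ℕ} (F : Fin t → MvPolynomial (Fin n × Fin 3) k)
    (D : Fin t → Fin n → ℕ) (P : ∀ i, (W i).Point) : ℝ :=
  ∑ v : InfinitePlace k, v.mult * (-Real.log (closeness F D P v)) +
    ∑ᶠ v : FinitePlace k, -Real.log (closeness F D P v)

/-- The height with respect to the ample divisor `Σ_i pr_i^* (0)`: half the sum of the heights of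
the `x`-coordinates. -/
noncomputable def ampleHeight {k : Type u} [Field k] [NumberField k] {n : ℕ}
    {W : Fin n → Affine k} (P : ∀ i, (W i).Point) : ℝ :=
  ∑ i, 1 / 2 * logHeight (P i).xRep

/-- The points outside `Y` with `P_i ∈ Γ_i`, of height at most `H`. -/
def points {k : Type u} [Field k] [NumberField k] [DecidableEq k] {n : ℕ} {W : Fin n → Affine k}
    (Γ : ∀ i, AddSubgroup (W i).Point) {t : ℕ} (F : Fin t → MvPolynomial (Fin n × Fin 3) k)
    (H : ℝ) : Set (∀ i, (W i).Point) :=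
  {P | (∀ i, P i ∈ Γ i) ∧ (∃ j, value (F j) P ≠ 0) ∧ ampleHeight P ≤ H}

/-- The points outside `Y` with `P_i ∈ Γ_i`, of height at most `H`, whose height with respect to
`Y` exceeds `ε` times the height. -/
def exceptional {k : Type u} [Field k] [NumberField k] [DecidableEq k] {n : ℕ}
    {W : Fin n → Affine k} (Γ : ∀ i, AddSubgroup (W i).Point) {t : ℕ}
    (F : Fin t → MvPolynomial (Fin n × Fin 3) k) (D : Fin t → Fin n → ℕ) (ε H : ℝ) :
    Set (∀ i, (W i).Point) :=
  {P | P ∈ points Γ F H ∧ ε * ampleHeight P < centreHeight F D P}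

/-- `1` if `a < s`, `1 + log H` if `a = s`, and `H ^ ((a - s) / 2)` if `a > s`. -/
noncomputable def growth (a s : ℕ) (H : ℝ) : ℝ :=
  if a < s then 1 else if a = s then 1 + Real.log H else H ^ ((a - s) / 2 : ℝ)

theorem result {k : Type u} [Field k] [NumberField k] [DecidableEq k] {n : ℕ}
    (W : Fin n → Affine k) [∀ i, (W i).IsElliptic] (Γ : ∀ i, AddSubgroup (W i).Point)
    (hΓ : ∀ i, (Γ i).FG) (r : ℕ) (hr : 1 ≤ r) (hrank : ∀ i, r ≤ Module.finrank ℤ (Γ i))
    {t : ℕ} (F : Fin t → MvPolynomial (Fin n × Fin 3) k) (D : Fin t → Fin n → ℕ)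
    (hF : ∀ j, MultiHom (F j) (D j)) (m c : ℕ) (hdim : DimLE (centreIdeal W F) m)
    (hc : 2 ≤ c) (hcodim : m + c ≤ n) (ρ : ℕ) (hρ : ρ = ∑ i, Module.finrank ℤ (Γ i)) :
    (∀ ε : ℝ, 0 < ε → ∃ C : ℝ, ∀ H : ℝ, 1 ≤ H →
      (exceptional Γ F D ε H).Finite ∧
      ((exceptional Γ F D ε H).ncard : ℝ) ≤ C * H ^ ((ρ - (c - 1) * r) / 2 : ℝ)) ∧
    ∀ p : ℕ, 1 ≤ p → ∃ C : ℝ, ∀ H : ℝ, 1 ≤ H → (points Γ F H).Finite ∧
      ((points Γ F H).ncard : ℝ) ≤ C * H ^ (ρ / 2 : ℝ) ∧
      ∀ S : Finset (∀ i, (W i).Point), (∀ P ∈ S, P ∈ points Γ F H) →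
        ∑ P ∈ S, max 0 (centreHeight F D P) ^ p ≤
          C * H ^ (ρ / 2 : ℝ) * growth (2 * p) ((c - 1) * r) H := by
  classical
  subst hρ
  set ρ : ℕ := ∑ i, Module.finrank ℤ (Γ i) with hρ
  obtain ⟨c', rfl⟩ : ∃ c', c = c' + 1 := ⟨c - 1, by omega⟩
  have hmc : m + c' + 1 ≤ n := by omega
  have hcoords : ∀ {W' : Affine k} (Q : W'.Point), coords Q = GE.coords Q := by
    intro W' Q
    match Q with
    | 0 => rfl
    | .some x y h => rfl
  have hv : ∀ (p : MvPolynomial (Fin n × Fin 3) k) (P : ∀ i, (W i).Point),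
      value p P = aeval (fun q : Fin n × Fin 3 => GE.coords (P q.1) q.2) p := by
    intro p P
    have : (fun q : Fin n × Fin 3 => coords (P q.1) q.2) =
        fun q : Fin n × Fin 3 => GE.coords (P q.1) q.2 := by
      funext q
      rw [hcoords]
    rw [value, this]
  have hcl : ∀ (P : ∀ i, (W i).Point) (v : k → ℝ),
      closeness F D P v = AG.closeness W F D P v := by
    intro P v
    unfold closeness AG.closeness
    simp only [hv, hcoords]
  have hoff : ∀ P : ∀ i, (W i).Point, (∃ j, value (F j) P ≠ 0) ↔ AG.Off W F P := by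
    intro P
    unfold AG.Off
    simp only [hv]
  have h𝓧 := fun i => AG.exists_xSys k (W i)
  choose 𝓧 hh hξ using h𝓧
  have hι : Nonempty (InfinitePlace k ⊕ FinitePlace k) := inferInstance
  have hamp : ∀ P : ∀ i, (W i).Point, ampleHeight P = 1 / 2 * ∑ i, (𝓧 i).H.h (P i) := by
    intro P
    rw [ampleHeight, Finset.mul_sum]
    exact Finset.sum_congr rfl fun i _ => by rw [hh]
  have hht : ∀ P : ∀ i, (W i).Point, AG.Off W F P →
      centreHeight F D P = AG.hY (AG.plSys k) W F D P := by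
    intro P hP
    have hfin := AG.closeness_fin (AG.plSys k) W F D P hP
    rw [AG.hY_eq (𝓟 := AG.plSys k) W F D P hfin.toFinset
      (fun v hv => hfin.mem_toFinset.mpr hv)]
    rw [H7.Vojta.sum_places _ hfin.toFinset]
    · unfold centreHeight
      simp only [hcl]
      congr 1
      apply finsum_congr
      intro v
      exact (one_mul _).symm
    · intro v hv
      rw [Set.Finite.mem_toFinset]
      intro h1
      apply right_ne_zero_of_mul hv
      rw [h1, Real.log_one, neg_zero]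
  have hF' : ∀ j, GE.MultiHom (F j) (D j) := hF
  have hdim' : GE.DimLE (AG.centreIdeal W F) m := hdim
  refine ⟨?_, ?_⟩
  · intro ε hε
    -- any moment of order more than `c' r / 2` will do
    set p : ℕ := c' * r + 1 with hp
    obtain ⟨C, hC0, hC⟩ := AG.exists_exceptions' (𝓟 := AG.plSys k) W F D hmc 𝓧 hξ Γ hΓ hr hrank
      hF' hdim' (p := p) (by omega) (ε := ε * (1 / 2)) (β := 1) (by positivity) zero_le_one le_rfl
    rw [← hρ] at hC
    set e : ℝ := ((ρ : ℝ) - c' * r) / 2 with he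
    refine ⟨C * 2 ^ e, ?_⟩
    intro H hH
    have hH0 : 0 < H := by linarith
    obtain ⟨hfin, hcard⟩ := hC (2 * H) (by linarith)
    have hsub : exceptional Γ F D ε H ⊆
        AG.excSet W F D (AG.plSys k) 𝓧 Γ (ε * (1 / 2)) 1 (2 * H) := by
      rintro P ⟨⟨h1, h2, h3⟩, h4⟩
      have h5 := (hoff P).mp h2
      refine ⟨h1, h5, ?_, ?_⟩
      · rw [hamp] at h3
        linarith
      · rw [hht P h5, hamp] at h4
        rw [Real.rpow_one, mul_assoc]
        exact h4
    refine ⟨hfin.subset hsub, ?_⟩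
    have h1 : ((exceptional Γ F D ε H).ncard : ℝ) ≤
        ((AG.excSet W F D (AG.plSys k) 𝓧 Γ (ε * (1 / 2)) 1 (2 * H)).ncard : ℝ) := by
      exact_mod_cast Set.ncard_le_ncard hsub hfin
    have h2 : (2 * H) ^ ((ρ : ℝ) / 2 - 1 * p) * AG.gr (2 * p) (c' * r) (2 * H) = (2 * H) ^ e := by
      rw [AG.gr, if_neg (by omega), if_neg (by omega), ← Real.rpow_add (by positivity)]
      congr 1
      rw [he]
      push_cast
      ring
    have h3 : (2 * H) ^ e = 2 ^ e * H ^ e := Real.mul_rpow (by norm_num) hH0.le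
    have e1 : ((ρ - ((((c' + 1 : ℕ) : ℝ)) - 1) * r) / 2 : ℝ) = e := by
      rw [he]; push_cast; ring
    rw [e1]
    calc _ ≤ _ := h1
      _ ≤ _ := hcard
      _ = C * 2 ^ e * H ^ e := by rw [h2, h3, mul_assoc]
  · intro p hp
    obtain ⟨C, hC0, hC⟩ := AG.exists_moment (𝓟 := AG.plSys k) W F D hmc 𝓧 hξ Γ hΓ hrank hF' hdim'
      hp
    rw [← hρ] at hC
    set s := c' * r with hs
    set K : ℝ := max 2 (2 ^ (((2 * p : ℕ) - s) / 2 : ℝ)) with hK
    have hK1 : (2 : ℝ) ≤ K := le_max_left _ _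
    refine ⟨C * 2 ^ ((ρ : ℝ) / 2) * K, ?_⟩
    intro H hH
    have hH0 : 0 < H := by linarith
    have hlog : 0 ≤ Real.log H := Real.log_nonneg hH
    have h3 : (2 * H) ^ ((ρ : ℝ) / 2) = 2 ^ ((ρ : ℝ) / 2) * H ^ ((ρ : ℝ) / 2) :=
      Real.mul_rpow (by norm_num) hH0.le
    have hgr : AG.gr (2 * p) s (2 * H) ≤ K * growth (2 * p) s H := by
      unfold AG.gr growth
      split_ifs
      · linarith
      · rw [Real.log_mul (by norm_num) hH0.ne']
        have := Real.log_two_lt_d9
        nlinarith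
      · rw [Real.mul_rpow (by norm_num) hH0.le]
        exact mul_le_mul_of_nonneg_right (le_max_right _ _) (by positivity)
    have hC' : ∀ S : Finset (∀ i, (W i).Point), (∀ P ∈ S, P ∈ points Γ F H) →
        (S.card : ℝ) ≤ C * 2 ^ ((ρ : ℝ) / 2) * K * H ^ ((ρ : ℝ) / 2) ∧
        ∑ P ∈ S, max 0 (centreHeight F D P) ^ p ≤
          C * 2 ^ ((ρ : ℝ) / 2) * K * H ^ ((ρ : ℝ) / 2) * growth (2 * p) s H := by
      intro S hS
      obtain ⟨h1, h2⟩ := hC (2 * H) (by linarith) S (fun P hP => by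
        obtain ⟨h1, h2, h3⟩ := hS P hP
        refine ⟨h1, (hoff P).mp h2, ?_⟩
        rw [hamp] at h3
        linarith)
      rw [h3] at h1 h2
      have hX : 0 ≤ C * (2 ^ ((ρ : ℝ) / 2) * H ^ ((ρ : ℝ) / 2)) := by positivity
      refine ⟨?_, ?_⟩
      · nlinarith
      calc ∑ P ∈ S, max 0 (centreHeight F D P) ^ p =
            ∑ P ∈ S, max 0 (AG.hY (AG.plSys k) W F D P) ^ p := by
            refine Finset.sum_congr rfl fun P hP => ?_
            rw [hht P ((hoff P).mp (hS P hP).2.1)]
        _ ≤ _ := h2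
        _ = C * (2 ^ ((ρ : ℝ) / 2) * H ^ ((ρ : ℝ) / 2)) * AG.gr (2 * p) s (2 * H) := by ring
        _ ≤ C * (2 ^ ((ρ : ℝ) / 2) * H ^ ((ρ : ℝ) / 2)) * (K * growth (2 * p) s H) :=
            mul_le_mul_of_nonneg_left hgr hX
        _ = _ := by ring
    have hfin : (points Γ F H).Finite := by
      by_contra hinf
      obtain ⟨T, hT, hTN⟩ := Set.Infinite.exists_subset_card_eq hinf
        (⌊C * 2 ^ ((ρ : ℝ) / 2) * K * H ^ ((ρ : ℝ) / 2)⌋₊ + 1)
      have h1 := (hC' T (fun P hP => hT hP)).1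
      have h2 := Nat.lt_floor_add_one (C * 2 ^ ((ρ : ℝ) / 2) * K * H ^ ((ρ : ℝ) / 2))
      rw [hTN] at h1
      push_cast at h1
      linarith
    refine ⟨hfin, ?_, fun S hS => ?_⟩
    · have h1 := (hC' hfin.toFinset (fun P hP => hfin.mem_toFinset.mp hP)).1
      rwa [← Set.ncard_eq_toFinset_card _ hfin] at h1
    · have h1 := (hC' S hS).2
      rwa [Nat.add_sub_cancel]

end Pool.Agent.Results.MP_9b9442_nt.ProductCentres
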